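import Mathlib

set_option autoImplicit false

/-!
# The adjoint on the complex group ring
-/

namespace Run7.h596.UD

open Finset MonoidAlgebra

variable {G : Type*} [Group G]

/-- the adjoint -/
noncomputable def adj : MonoidAlgebra ℂ G →+ MonoidAlgebra ℂ G where
  toFun x := ofCoeff ((x.coeff.comapDomain (fun g : G => g⁻¹) inv_injective.injOn).mapRange
    (starRingEnd ℂ) (map_zero _))
  map_zero' := by
    ext g
    show (starRingEnd ℂ) ((0 : MonoidAlgebra ℂ G).coeff g⁻¹) = _
    simp
  map_add' x y := by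
    ext g
    show (starRingEnd ℂ) ((x + y).coeff g⁻¹) = (starRingEnd ℂ) (x.coeff g⁻¹) +
      (starRingEnd ℂ) (y.coeff g⁻¹)
    rw [coeff_add, Finsupp.add_apply, map_add]

theorem adj_coeff (x : MonoidAlgebra ℂ G) (g : G) : (adj x).coeff g = (starRingEnd ℂ) (x.coeff g⁻¹) :=
  rfl

theorem adj_single (g : G) (a : ℂ) : adj (single g a) = single g⁻¹ ((starRingEnd ℂ) a) := by
  classical
  ext h
  rw [adj_coeff, coeff_single, coeff_single, Finsupp.single_apply, Finsupp.single_apply]
  by_cases hh : g = h⁻¹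
  · rw [if_pos hh, if_pos (by rw [hh, inv_inv])]
  · rw [if_neg hh, if_neg (fun h1 => hh (by rw [← h1, inv_inv])), map_zero]

theorem adj_mul (x y : MonoidAlgebra ℂ G) : adj (x * y) = adj y * adj x := by
  induction x using MonoidAlgebra.induction_linear with
  | zero => rw [zero_mul, map_zero, mul_zero]
  | add a b ha hb => rw [add_mul, map_add, map_add, mul_add, ha, hb]
  | single g a =>
    induction y using MonoidAlgebra.induction_linear with
    | zero => rw [mul_zero, map_zero, zero_mul]
    | add a b ha hb => rw [mul_add, map_add, map_add, add_mul, ha, hb]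
    | single h b =>
      rw [single_mul_single, adj_single, adj_single, adj_single, single_mul_single, mul_inv_rev,
        map_mul, mul_comm]

theorem adj_adj (x : MonoidAlgebra ℂ G) : adj (adj x) = x := by
  ext g
  rw [adj_coeff, adj_coeff, inv_inv, Complex.conj_conj]

theorem eq_zero_of_adj_mul {w : MonoidAlgebra ℂ G} (h : adj w * w = 0) : w = 0 := by
  have h1 : (adj w * w).coeff 1 = ∑ g ∈ w.coeff.support, (Complex.normSq (w.coeff g) : ℂ) := by
    have h2 : w = ∑ g ∈ w.coeff.support, single g (w.coeff g) := (sum_coeff_single w).symm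
    have h5 : adj w * w = ∑ g ∈ w.coeff.support, adj w * single g (w.coeff g) := by
      rw [← mul_sum, ← h2]
    rw [h5, coeff_sum, Finsupp.finsetSum_apply]
    refine sum_congr rfl fun g _ => ?_
    rw [coeff_mul_single_apply, one_mul, adj_coeff, inv_inv, mul_comm, Complex.mul_conj]
  rw [h] at h1
  have h3 : ∑ g ∈ w.coeff.support, Complex.normSq (w.coeff g) = 0 := by
    have h4 : ((∑ g ∈ w.coeff.support, Complex.normSq (w.coeff g) : ℝ) : ℂ) = 0 := by
      rw [Complex.ofReal_sum, ← h1]
      rfl
    exact_mod_cast h4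
  rw [sum_eq_zero_iff_of_nonneg fun g _ => Complex.normSq_nonneg _] at h3
  ext g
  by_contra hg
  exact hg (Complex.normSq_eq_zero.1 (h3 g (Finsupp.mem_support_iff.2 hg)))

/-- complex group rings are nonsingular -/
theorem nonsing_complex (β : MonoidAlgebra ℂ G) (hβ : β ≠ 0) :
    ∃ γ : MonoidAlgebra ℂ G, γ ≠ 0 ∧ ∀ y, β * γ * y = 0 → γ * y = 0 := by
  refine ⟨adj β, fun h => hβ ?_, fun y hy => eq_zero_of_adj_mul ?_⟩
  · rw [← adj_adj β, h, map_zero]
  · rw [adj_mul, adj_adj, mul_assoc, ← mul_assoc β, hy, mul_zero]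

end Run7.h596.UD
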