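import Mathlib

set_option autoImplicit false

/-!
# Independent families over a subring, counted by the cosets

`ι : S → R` is a ring homomorphism and `φ q : R → S` are right `S`-linear maps which separate the points.
-/

namespace Run7.h596.UD

open Finset

section Count

variable {S R Q κ : Type*} [Ring S] [Ring R]

/-- The right `S`-submodules `x i S`, `i ∈ J`, are nonzero and their sum is direct. -/
def Ind (ι : S →+* R) (J : Finset κ) (x : κ → R) : Prop :=
  (∀ i ∈ J, x i ≠ 0) ∧ ∀ y : κ → S, ∑ i ∈ J, x i * ι (y i) = 0 → ∀ i ∈ J, x i * ι (y i) = 0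

theorem Ind.mono {ι : S →+* R} {J J' : Finset κ} {x : κ → R} (h : Ind ι J x) (hJ : J' ⊆ J) :
    Ind ι J' x := by
  classical
  refine ⟨fun i hi => h.1 i (hJ hi), fun y hy i hi => ?_⟩
  have h1 : ∑ i ∈ J, x i * ι ((fun i => if i ∈ J' then y i else 0) i) = 0 := by
    rw [← hy]
    symm
    refine sum_subset_zero_on_sdiff hJ (fun i hi => ?_) (fun i hi => ?_)
    · rw [mem_sdiff] at hi
      simp [hi.2]
    · simp [hi]
  have h2 := h.2 _ h1 i (hJ hi)
  simpa [hi] using h2

variable (ι : S →+* R) (φ : Q → R →+ S)

/-- Independent families of elements which are supported in the finite set `T` have at most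
`u |T|` members. -/
theorem count [DecidableEq κ] [DecidableEq Q] {u : ℕ}
    (hφ : ∀ q x y, φ q (x * ι y) = φ q x * y) (h0 : ∀ x, (∀ q, φ q x = 0) → x = 0)
    (hu : ∀ (J : Finset κ) (x : κ → S), Ind (RingHom.id S) J x → J.card ≤ u)
    (T : Finset Q) : ∀ (J : Finset κ) (x : κ → R), Ind ι J x →
      (∀ i ∈ J, ∀ q, q ∉ T → φ q (x i) = 0) → J.card ≤ u * T.card := by
  induction T using Finset.induction_on with
  | empty =>
    intro J x hx hs
    have hJ : J = ∅ := by
      rw [eq_empty_iff_forall_notMem]
      intro i hi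
      exact hx.1 i hi (h0 _ fun q => hs i hi q (notMem_empty q))
    rw [hJ, card_empty]
    exact Nat.zero_le _
  | insert q T hq ih =>
    intro J x hx hs
    classical
    -- a maximal subset on which `φ q` is injective
    obtain ⟨I, hI, hmax⟩ := exists_max_image
      (J.powerset.filter fun I => ∀ y : κ → S, φ q (∑ i ∈ I, x i * ι (y i)) = 0 →
        ∑ i ∈ I, x i * ι (y i) = 0) (fun I => I.card)
      ⟨∅, by rw [mem_filter, mem_powerset]
             exact ⟨empty_subset _, fun y _ => sum_empty⟩⟩
    rw [mem_filter, mem_powerset] at hI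
    obtain ⟨hIJ, hinj⟩ := hI
    have hext : ∀ j ∈ J \ I, ∃ y : κ → S, φ q (∑ i ∈ I, x i * ι (y i) + x j * ι (y j)) = 0 ∧
        ∑ i ∈ I, x i * ι (y i) + x j * ι (y j) ≠ 0 := by
      intro j hj
      rw [mem_sdiff] at hj
      by_contra hcon
      push Not at hcon
      have h1 := hmax (insert j I) (by
        rw [mem_filter, mem_powerset]
        refine ⟨insert_subset hj.1 hIJ, fun y hy => ?_⟩
        rw [sum_insert hj.2, add_comm] at hy ⊢
        exact hcon y hy)
      rw [card_insert_of_notMem hj.2] at h1
      omega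
    choose! Y hY hY0 using hext
    -- the part outside `I`
    have h1 : (J \ I).card ≤ u * T.card := by
      refine ih (J \ I) (fun j => ∑ i ∈ I, x i * ι (Y j i) + x j * ι (Y j j)) ⟨hY0, ?_⟩ ?_
      · intro z hz
        have h2 : ∑ i ∈ J, x i * ι ((fun i => if i ∈ I then ∑ j ∈ J \ I, Y j i * z j
            else Y i i * z i) i) = 0 := by
          rw [← hz, ← sum_sdiff hIJ]
          have e1 : ∑ i ∈ J \ I, x i * ι ((fun i => if i ∈ I then ∑ j ∈ J \ I, Y j i * z j
              else Y i i * z i) i) = ∑ i ∈ J \ I, x i * ι (Y i i) * ι (z i) := by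
            refine sum_congr rfl fun i hi => ?_
            rw [mem_sdiff] at hi
            simp only [if_neg hi.2, map_mul, mul_assoc]
          have e2 : ∑ i ∈ I, x i * ι ((fun i => if i ∈ I then ∑ j ∈ J \ I, Y j i * z j
              else Y i i * z i) i) = ∑ i ∈ J \ I, (∑ l ∈ I, x l * ι (Y i l)) * ι (z i) := by
            have e3 : ∀ i ∈ I, x i * ι ((fun i => if i ∈ I then ∑ j ∈ J \ I, Y j i * z j
              else Y i i * z i) i) = ∑ j ∈ J \ I, x i * ι (Y j i) * ι (z j) := by
              intro i hi
              simp only [if_pos hi, map_sum, map_mul, mul_sum, mul_assoc]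
            rw [sum_congr rfl e3, sum_comm]
            exact sum_congr rfl fun j _ => (sum_mul _ _ _).symm
          rw [e1, e2, ← sum_add_distrib]
          refine sum_congr rfl fun j _ => ?_
          rw [add_mul, add_comm]
        intro j hj
        have hj' := mem_sdiff.1 hj
        have h3 := hx.2 _ h2 j hj'.1
        simp only [if_neg hj'.2, map_mul, ← mul_assoc] at h3
        have h4 : φ q (∑ i ∈ I, x i * ι (Y j i * z j)) = 0 := by
          have h5 := hφ q (∑ i ∈ I, x i * ι (Y j i) + x j * ι (Y j j)) (z j)
          rw [hY j hj, zero_mul, add_mul, h3, add_zero, sum_mul] at h5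
          rw [← h5]
          congr 1
          exact sum_congr rfl fun i _ => by rw [map_mul, mul_assoc]
        have h6 := hinj (fun i => Y j i * z j) h4
        show (∑ i ∈ I, x i * ι (Y j i) + x j * ι (Y j j)) * ι (z j) = 0
        rw [add_mul, h3, add_zero, sum_mul, ← h6]
        exact sum_congr rfl fun i _ => by rw [map_mul, mul_assoc]
      · intro j hj q' hq'
        by_cases hqq : q' = q
        · rw [hqq]; exact hY j hj
        · have h7 : ∀ i ∈ J, φ q' (x i) = 0 := fun i hi => hs i hi q' (by
            rw [mem_insert]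
            tauto)
          show φ q' (∑ i ∈ I, x i * ι (Y j i) + x j * ι (Y j j)) = 0
          rw [map_add, map_sum, hφ, h7 j (mem_sdiff.1 hj).1, zero_mul, add_zero]
          exact sum_eq_zero fun i hi => by rw [hφ, h7 i (hIJ hi), zero_mul]
    have h2 : I.card ≤ u := by
      refine hu I (fun i => φ q (x i)) ⟨fun i hi h => hx.1 i (hIJ hi) ?_, fun y hy i hi => ?_⟩
      · have h3 := hinj (fun j => if j = i then 1 else 0) (by
          rw [sum_eq_single i (fun j _ hj => by simp [hj]) (fun h => absurd hi h)]
          simpa using h)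
        rw [sum_eq_single i (fun j _ hj => by simp [hj]) (fun h => absurd hi h)] at h3
        simpa using h3
      · have h3 : φ q (∑ i ∈ I, x i * ι (y i)) = 0 := by
          rw [map_sum, ← hy]
          exact sum_congr rfl fun i _ => hφ _ _ _
        have h4 := (hx.mono hIJ).2 y (hinj y h3) i hi
        show φ q (x i) * y i = 0
        rw [← hφ, h4, map_zero]
    have h3 := card_sdiff_add_card_eq_card hIJ
    rw [card_insert_of_notMem hq, Nat.mul_succ]
    omega

end Count

end Run7.h596.UD
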