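import Pool.Agent.Run7.h596.UD.Count

set_option autoImplicit false

/-!
# Group rings over the group ring of a normal subgroup
-/

namespace Run7.h596.UD

open Finset MonoidAlgebra

section GR

variable {k G : Type*} [Ring k] [Group G] (N : Subgroup G)

/-- the inclusion of the group ring of the subgroup -/
noncomputable def inc : MonoidAlgebra k N →+* MonoidAlgebra k G := mapDomainRingHom k N.subtype

theorem inj_out (q : G ⧸ N) : Function.Injective fun n : N => q.out * (n : G) :=
  fun _ _ h => Subtype.ext (mul_left_cancel h)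

/-- the component at the coset `q` -/
noncomputable def phi (q : G ⧸ N) : MonoidAlgebra k G →+ MonoidAlgebra k N where
  toFun x := ofCoeff (x.coeff.comapDomain (fun n : N => q.out * (n : G)) (inj_out N q).injOn)
  map_zero' := by ext n; rfl
  map_add' x y := by ext n; rfl

theorem phi_coeff (q : G ⧸ N) (x : MonoidAlgebra k G) (n : N) :
    (phi N q x).coeff n = x.coeff (q.out * n) := rfl

theorem phi_mul (q : G ⧸ N) (x : MonoidAlgebra k G) (y : MonoidAlgebra k N) :
    phi N q (x * inc N y) = phi N q x * y := by
  induction y using MonoidAlgebra.induction_linear with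
  | zero => rw [map_zero, mul_zero, mul_zero, map_zero]
  | add a b ha hb => rw [map_add, mul_add, map_add, ha, hb, mul_add]
  | single m b =>
    ext n
    have h1 : inc N (single m b) = single (m : G) b := mapDomain_single
    rw [h1, phi_coeff, coeff_mul_single_apply, coeff_mul_single_apply, phi_coeff]
    simp [mul_assoc]

theorem eq_zero_of_phi (x : MonoidAlgebra k G) (h : ∀ q, phi N q x = 0) : x = 0 := by
  ext g
  have h1 : ((g : G ⧸ N)).out⁻¹ * g ∈ N := by
    rw [← QuotientGroup.eq, QuotientGroup.out_eq']
  have h2 := congrArg (fun z : MonoidAlgebra k N => z.coeff ⟨_, h1⟩) (h (g : G ⧸ N))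
  simp only [phi_coeff, mul_inv_cancel_left] at h2
  exact h2

/-- the cosets which meet the support -/
noncomputable def cosets (x : MonoidAlgebra k G) : Finset (G ⧸ N) := by
  classical exact x.coeff.support.image (fun g => (g : G ⧸ N))

theorem mem_cosets {x : MonoidAlgebra k G} {q : G ⧸ N} :
    q ∈ cosets N x ↔ ∃ g, x.coeff g ≠ 0 ∧ (g : G ⧸ N) = q := by
  classical
  unfold cosets
  simp

theorem cosets_nonempty {x : MonoidAlgebra k G} (hx : x ≠ 0) : (cosets N x).Nonempty := by
  by_contra h
  rw [not_nonempty_iff_eq_empty] at h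
  apply hx
  ext g
  by_contra hg
  have h1 : (g : G ⧸ N) ∈ cosets N x := mem_cosets N |>.2 ⟨g, hg, rfl⟩
  rw [h] at h1
  exact notMem_empty _ h1

variable [N.Normal]

theorem phi_ne {α : MonoidAlgebra k G} {a : G ⧸ N} (ha : a ∈ cosets N α) (b : G ⧸ N) :
    phi N (a * b) (α * single b.out 1) ≠ 0 := by
  obtain ⟨g, hg, rfl⟩ := (mem_cosets N).1 ha
  intro h
  have h1 : (((g : G ⧸ N) * b).out)⁻¹ * (g * b.out) ∈ N := by
    rw [← QuotientGroup.eq, QuotientGroup.out_eq', QuotientGroup.mk_mul, QuotientGroup.out_eq']
  have h2 := congrArg (fun z : MonoidAlgebra k N => z.coeff ⟨_, h1⟩) h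
  simp only [phi_coeff, mul_inv_cancel_left, coeff_mul_single_apply, mul_inv_cancel_right, mul_one]
    at h2
  exact hg h2

theorem phi_zero {α : MonoidAlgebra k G} {p b : G ⧸ N} (h : ∀ a ∈ cosets N α, a * b ≠ p) :
    phi N p (α * single b.out 1) = 0 := by
  ext n
  rw [phi_coeff, coeff_mul_single_apply, mul_one]
  by_contra hg
  refine h _ ((mem_cosets N).2 ⟨_, hg, rfl⟩) ?_
  rw [QuotientGroup.mk_mul, QuotientGroup.mk_mul, QuotientGroup.out_eq', QuotientGroup.mk_inv,
    QuotientGroup.out_eq', (QuotientGroup.eq_one_iff (n : G)).2 n.2, mul_one,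
    inv_mul_cancel_right]

/-- The ring is right nonsingular, in terms of elements: no element other than zero has an
essential right annihilator. -/
def Nonsing (S : Type*) [Ring S] : Prop :=
  ∀ β : S, β ≠ 0 → ∃ γ : S, γ ≠ 0 ∧ ∀ y, β * γ * y = 0 → γ * y = 0

open Classical in
theorem peel [UniqueProds (G ⧸ N)] (hS : Nonsing (MonoidAlgebra k N)) {α : MonoidAlgebra k G}
    (hα : α ≠ 0) : ∀ (n : ℕ) (F : Finset (G ⧸ N)), F.card = n →
      ∃ γ : (G ⧸ N) → MonoidAlgebra k N,
        Ind (inc N) F (fun f => α * single f.out 1 * inc N (γ f)) := by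
  intro n
  induction n with
  | zero =>
    intro F hF
    rw [card_eq_zero] at hF
    subst hF
    exact ⟨fun _ => 0, fun i hi => absurd hi (notMem_empty i),
      fun _ _ i hi => absurd hi (notMem_empty i)⟩
  | succ n ih =>
    intro F hF
    have hFn : F.Nonempty := by
      rw [← card_pos]
      omega
    obtain ⟨a, ha, b, hb, hu⟩ := UniqueProds.uniqueMul_of_nonempty (cosets_nonempty N hα) hFn
    obtain ⟨γ, h0, h1⟩ := ih (F.erase b) (by rw [card_erase_of_mem hb]; omega)
    obtain ⟨g, hg0, hg⟩ := hS _ (phi_ne N ha b)
    have hz : ∀ f ∈ F.erase b, phi N (a * b) (α * single f.out 1) = 0 := by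
      intro f hf
      rw [mem_erase] at hf
      exact phi_zero N fun a' ha' h => hf.1 (hu ha' hf.2 h).2
    have hu1 : ∀ f ∈ F.erase b, Function.update γ b g f = γ f := by
      intro f hf
      rw [mem_erase] at hf
      exact Function.update_of_ne hf.1 _ _
    refine ⟨Function.update γ b g, fun i hi h => ?_, fun y hy i hi => ?_⟩
    · by_cases hib : i = b
      · subst hib
        beta_reduce at h
        rw [Function.update_self] at h
        have h2 := phi_mul N (a * i) (α * single i.out 1) g
        rw [h, map_zero] at h2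
        have h3 := hg 1 (by rw [← h2, zero_mul])
        rw [mul_one] at h3
        exact hg0 h3
      · have hi' : i ∈ F.erase b := mem_erase.2 ⟨hib, hi⟩
        beta_reduce at h
        rw [hu1 i hi'] at h
        exact h0 i hi' h
    · have hs : ∑ i ∈ F.erase b, α * single i.out 1 * inc N (Function.update γ b g i) *
          inc N (y i) = ∑ i ∈ F.erase b, α * single i.out 1 * inc N (γ i) * inc N (y i) :=
        sum_congr rfl fun i hi => by rw [hu1 i hi]
      rw [← add_sum_erase F _ hb] at hy
      beta_reduce at hy
      rw [hs, Function.update_self] at hy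
      have h2 : phi N (a * b) (∑ i ∈ F.erase b, α * single i.out 1 * inc N (γ i) *
          inc N (y i)) = 0 := by
        rw [map_sum]
        refine sum_eq_zero fun i hi => ?_
        rw [phi_mul, phi_mul, hz i hi, zero_mul, zero_mul]
      have h3 := congrArg (phi N (a * b)) hy
      rw [map_add, h2, add_zero, map_zero, phi_mul, phi_mul] at h3
      have h4 := hg _ h3
      have h5 : α * single b.out 1 * inc N g * inc N (y b) = 0 := by
        rw [mul_assoc, ← map_mul, h4, map_zero, mul_zero]
      rw [h5, zero_add] at hy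
      by_cases hib : i = b
      · subst hib
        beta_reduce
        rw [Function.update_self]
        exact h5
      · have hi' : i ∈ F.erase b := mem_erase.2 ⟨hib, hi⟩
        beta_reduce
        rw [hu1 i hi']
        exact h1 y hy i hi'

end GR

end Run7.h596.UD
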